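import Pool.Agent.helper37.P2.SpecD

set_option autoImplicit false

open scoped ContDiff Topology
open MeasureTheory Filter Set Metric MvPolynomial Pool.Agent.helper37.QA

namespace Pool.Agent.P2

theorem ENP_cone_mono {U V : Set (PP 2)} (h : U ⊆ V) : cone U ⊆ cone V := by
  rintro x ⟨hx, hm⟩
  exact ⟨hx, h hm⟩

/-- the set of the disjointness argument -/
def ENP_S (c : ℂ) (κ t : ℝ) (γ : ℂ → ℂ) (B : Set ℂ) : Set (ℂ × ℂ) :=
  {q : ℂ × ℂ | ∃ ξ : ℂ, ‖ξ‖ < 1 / 2 ∧ ξ ∉ B ∧ q.1 = c + κ * ξ ∧ ‖q.2 - γ ξ‖ < κ * t}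

theorem ENP_S_meas (c : ℂ) (κ t : ℝ) (hκ : 0 < κ) (γ : ℂ → ℂ)
    (hγ : DifferentiableOn ℂ γ (ball 0 1)) (B : Set ℂ) (hB : MeasurableSet B) :
    MeasurableSet (ENP_S c κ t γ B) := by
  have hκ' : (κ : ℂ) ≠ 0 := by exact_mod_cast hκ.ne'
  have hφ : Continuous (fun q : ℂ × ℂ => (q.1 - c) / κ) := by fun_prop
  have e : ENP_S c κ t γ B = ({q : ℂ × ℂ | ‖(q.1 - c) / κ‖ < 1 / 2} ∩
      (fun q : ℂ × ℂ => ‖q.2 - γ ((q.1 - c) / κ)‖) ⁻¹' (Iio (κ * t))) ∩
      ((fun q : ℂ × ℂ => (q.1 - c) / κ) ⁻¹' Bᶜ) := by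
    ext q
    constructor
    · rintro ⟨ξ, h1, h2, h3, h4⟩
      have h5 : (q.1 - c) / κ = ξ := by
        rw [h3]
        field_simp
        ring
      refine ⟨⟨?_, ?_⟩, ?_⟩
      · show ‖(q.1 - c) / κ‖ < 1 / 2
        rw [h5]; exact h1
      · show ‖q.2 - γ ((q.1 - c) / κ)‖ < κ * t
        rw [h5]; exact h4
      · show (q.1 - c) / κ ∉ B
        rw [h5]; exact h2
    · rintro ⟨⟨h1, h2⟩, h3⟩
      refine ⟨(q.1 - c) / κ, h1, h3, ?_, h2⟩
      field_simp
      ring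
  rw [e]
  refine MeasurableSet.inter ?_ ?_
  · refine IsOpen.measurableSet ?_
    refine ContinuousOn.isOpen_inter_preimage ?_ ?_ isOpen_Iio
    · refine ContinuousOn.norm (ContinuousOn.sub continuousOn_snd ?_)
      refine hγ.continuousOn.comp hφ.continuousOn ?_
      intro q hq
      have hq' : ‖(q.1 - c) / κ‖ < 1 / 2 := hq
      rw [mem_ball_zero_iff]
      linarith
    · exact isOpen_lt (by fun_prop) continuous_const
  · exact hφ.measurable hB.compl

theorem ENP (hCHB : CHB_stmt) (hMNC : MNC_stmt) (hTEN : TEN_stmt) (hSEP : SEP_stmt) :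
    ENP_stmt := by
  intro d f Us K hd hcore ε hε
  obtain ⟨𝒱, CB, G, hVo, hKV, hVU, hCB, hcount, hint⟩ := hMNC d f Us K hd hcore ε hε
  refine ⟨𝒱, CB, G, hVo, hKV, hVU, hCB, hcount, ?_⟩
  intro κ ε1 hκ hκ10 hε1
  obtain ⟨C1, hC1, hTE⟩ := hTEN d f (Us 0) hd hcore.good κ hκ hκ10
  obtain ⟨R, hR1, hR⟩ := hCHB.1 d f (Us 0) hcore.good
  obtain ⟨M, hM⟩ : ∃ M : ℕ, C1 * CB / ε1 < M := exists_nat_gt _
  refine ⟨M, ?_⟩
  intro r hr
  obtain ⟨n1, hn1⟩ := hSEP (2 * R) (min r (2 * R)) (lt_min hr (by linarith)) (min_le_right _ _)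
  refine ⟨M * n1, ?_⟩
  intro ρ hρ
  obtain ⟨t0', ht0', hsep⟩ := hn1 ρ hρ
  have h2κ : 0 < 2 * κ := by linarith
  refine ⟨t0' / (2 * κ), div_pos ht0' h2κ, ?_⟩
  intro t ht htt n hn ι c hc
  have h2t : 2 * κ * t ≤ t0' := by
    rw [le_div_iff₀ h2κ] at htt
    linarith
  have hx3 : ∀ ξ : ℂ, ‖ξ‖ < 1 → ‖c + κ * ξ‖ ≤ 3 := by
    intro ξ hξ
    calc ‖c + κ * ξ‖ ≤ ‖c‖ + ‖(κ : ℂ) * ξ‖ := norm_add_le _ _
      _ = ‖c‖ + κ * ‖ξ‖ := by rw [norm_mul, Complex.norm_real, Real.norm_of_nonneg hκ.le]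
      _ ≤ 2 + (1 / 10) * 1 := add_le_add hc (mul_le_mul hκ10 hξ.le (norm_nonneg _) (by norm_num))
      _ ≤ 3 := by norm_num
  -- the bad graphs
  obtain ⟨Bad, hBad⟩ : ∃ Bad : (ℂ → ℂ) → Prop, Bad = fun γ => DifferentiableOn ℂ γ (ball 0 1) ∧
    (∀ ξ ∈ ball (0 : ℂ) 1, ∀ v ∈ ball (0 : ℂ) (κ * t), gp ι c κ γ (ξ, v) ∈ cone 𝒱) ∧
    ¬ EB f n ι c κ γ t (M * n1) ρ ε1 := ⟨_, rfl⟩
  have hκt : 0 < κ * t := mul_pos hκ ht
  have hbd : ∀ γ, Bad γ → ∀ ξ ∈ ball (0 : ℂ) 1, ‖γ ξ‖ ≤ R := by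
    intro γ hγ ξ hξ
    rw [hBad] at hγ
    have h1 := ENP_cone_mono hVU (hγ.2.1 ξ hξ 0 (mem_ball_self hκt))
    have h2 : cht ι (c + κ * ξ) (γ ξ + 0) ∈ cone (Us 0) := h1
    rw [add_zero] at h2
    exact hR ι _ _ (hx3 ξ (by simpa using hξ)) h2
  -- no separated family of size M
  have claim : ∀ F : ℕ → ℂ → ℂ, (∀ i < M, Bad (F i)) →
      (∀ i < M, ∀ j < M, i ≠ j → ¬ Clo (F i) r (F j)) → False := by
    intro F hF hFs
    have hz : ∀ i j : Fin M, ∃ z : Fin n1 → ℂ, i ≠ j → ∀ ξ ∈ closedBall (0 : ℂ) (1 / 2),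
        ‖F i ξ - F j ξ‖ < t0' → ∃ l, ‖ξ - z l‖ < ρ := by
      intro i j
      by_cases hij : i = j
      · exact ⟨fun _ => 0, fun h => absurd hij h⟩
      · have hi := hF i i.2
        have hj := hF j j.2
        have hs := hFs j j.2 i i.2 (fun h => hij (Fin.ext h.symm))
        unfold Clo at hs
        push Not at hs
        obtain ⟨ζ, hζ, hζr⟩ := hs
        have hi' := hi
        have hj' := hj
        rw [hBad] at hi' hj'
        have hb2 : ∀ ξ ∈ ball (0 : ℂ) 1, ‖(fun ξ => F i ξ - F j ξ) ξ‖ ≤ 2 * R := by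
          intro ξ hξ
          calc ‖F i ξ - F j ξ‖ ≤ ‖F i ξ‖ + ‖F j ξ‖ := norm_sub_le _ _
            _ ≤ R + R := add_le_add (hbd _ hi ξ hξ) (hbd _ hj ξ hξ)
            _ = 2 * R := by ring
        obtain ⟨z, hz⟩ := hsep (fun ξ => F i ξ - F j ξ) (hi'.1.sub hj'.1) hb2
          ⟨ζ, hζ, (min_le_left _ _).trans hζr.le⟩
        exact ⟨z, fun _ => hz⟩
    choose z hz using hz
    obtain ⟨Z, hZ⟩ : ∃ Z : Fin M → Fin (M * n1) → ℂ, Z = fun i k =>
      z i (finProdFinEquiv.symm k).1 (finProdFinEquiv.symm k).2 := ⟨_, rfl⟩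
    have hZm : ∀ (i j : Fin M) (l : Fin n1), ∃ k, Z i k = z i j l := by
      intro i j l
      refine ⟨finProdFinEquiv (j, l), ?_⟩
      rw [hZ]
      simp
    obtain ⟨B, hB⟩ : ∃ B : Fin M → Set ℂ, B = fun i => ⋃ k, ball (Z i k) ρ := ⟨_, rfl⟩
    have hBm : ∀ i, MeasurableSet (B i) := by
      intro i
      rw [hB]
      exact (isOpen_iUnion fun k => isOpen_ball).measurableSet
    have hdisj : ∀ i j : Fin M, i ≠ j →
        Disjoint (ENP_S c κ t (F i) (B i)) (ENP_S c κ t (F j) (B j)) := by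
      intro i j hij
      rw [Set.disjoint_left]
      rintro q ⟨ξ, h1, h2, h3, h4⟩ ⟨ξ', h1', h2', h3', h4'⟩
      have hκ' : (κ : ℂ) ≠ 0 := by exact_mod_cast hκ.ne'
      have hξ : ξ' = ξ := by
        rw [h3] at h3'
        have := add_left_cancel h3'
        exact (mul_left_cancel₀ hκ' this).symm
      rw [hξ] at h4'
      have h5 : ‖F i ξ - F j ξ‖ < t0' := by
        calc ‖F i ξ - F j ξ‖ = ‖(q.2 - F j ξ) - (q.2 - F i ξ)‖ := by congr 1; ring
          _ ≤ ‖q.2 - F j ξ‖ + ‖q.2 - F i ξ‖ := norm_sub_le _ _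
          _ < κ * t + κ * t := add_lt_add h4' h4
          _ ≤ t0' := by linarith
      obtain ⟨l, hl⟩ := hz i j hij ξ (by rw [mem_closedBall_zero_iff]; exact h1.le) h5
      obtain ⟨k, hk⟩ := hZm i j l
      apply h2
      rw [hB]
      refine mem_iUnion.2 ⟨k, ?_⟩
      rw [hk, mem_ball, dist_eq_norm]
      exact hl
    have hsub : ∀ i : Fin M, ENP_S c κ t (F i) (B i) ⊆
        {p : ℂ × ℂ | ‖p.1‖ ≤ 3 ∧ cht ι p.1 p.2 ∈ cone 𝒱} := by
      rintro i q ⟨ξ, h1, h2, h3, h4⟩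
      have hi := hF i i.2
      rw [hBad] at hi
      have hξ1 : ‖ξ‖ < 1 := by linarith
      refine ⟨?_, ?_⟩
      · show ‖q.1‖ ≤ 3
        rw [h3]
        exact hx3 ξ hξ1
      · have h5 := hi.2.1 ξ (by rw [mem_ball_zero_iff]; exact hξ1) (q.2 - F i ξ)
          (by rw [mem_ball_zero_iff]; exact h4)
        have h6 : gp ι c κ (F i) (ξ, q.2 - F i ξ) = cht ι q.1 q.2 := by
          show cht ι (c + κ * ξ) (F i ξ + (q.2 - F i ξ)) = cht ι q.1 q.2
          rw [← h3, add_sub_cancel]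
        rw [h6] at h5
        exact h5
    have hen : ∀ i : Fin M, ENNReal.ofReal ε1 ≤ ENNReal.ofReal C1 *
        ∫⁻ q in ENP_S c κ t (F i) (B i), ENNReal.ofReal (He f n ι q) := by
      intro i
      have hi := hF i i.2
      rw [hBad] at hi
      have h1 := hi.2.2
      unfold EB at h1
      push Not at h1
      have h2 := h1 (Z i)
      have h3 := hTE n ι c (F i) t (B i) hc ht (hBm i) hi.1
        (fun ξ hξ v hv => ENP_cone_mono hVU (hi.2.1 ξ hξ v hv))
      have hBi : B i = ⋃ k, ball (Z i k) ρ := by rw [hB]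
      rw [hBi] at h3 ⊢
      exact h2.le.trans h3
    have hsum : (M : ENNReal) * ENNReal.ofReal ε1 ≤ ENNReal.ofReal C1 * ENNReal.ofReal CB := by
      calc (M : ENNReal) * ENNReal.ofReal ε1 = ∑ i : Fin M, ENNReal.ofReal ε1 := by
            rw [Finset.sum_const, Finset.card_univ, Fintype.card_fin, nsmul_eq_mul]
        _ ≤ ∑ i : Fin M, ENNReal.ofReal C1 *
            ∫⁻ q in ENP_S c κ t (F i) (B i), ENNReal.ofReal (He f n ι q) :=
          Finset.sum_le_sum fun i _ => hen i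
        _ = ENNReal.ofReal C1 * ∑ i : Fin M,
            ∫⁻ q in ENP_S c κ t (F i) (B i), ENNReal.ofReal (He f n ι q) := by
          rw [Finset.mul_sum]
        _ = ENNReal.ofReal C1 * ∫⁻ q in ⋃ i ∈ (Finset.univ : Finset (Fin M)),
            ENP_S c κ t (F i) (B i), ENNReal.ofReal (He f n ι q) := by
          rw [lintegral_biUnion_finset]
          · intro i _ j _ hij
            exact hdisj i j hij
          · intro i _
            have hi := hF i i.2
            rw [hBad] at hi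
            exact ENP_S_meas c κ t hκ (F i) hi.1 (B i) (hBm i)
        _ ≤ ENNReal.ofReal C1 * ∫⁻ p in {p : ℂ × ℂ | ‖p.1‖ ≤ 3 ∧ cht ι p.1 p.2 ∈ cone 𝒱},
            ENNReal.ofReal (He f n ι p) := by
          refine mul_le_mul' le_rfl (lintegral_mono_set ?_)
          exact iUnion₂_subset fun i _ => hsub i
        _ ≤ ENNReal.ofReal C1 * ENNReal.ofReal CB := mul_le_mul' le_rfl (hint n hn ι)
    rw [← ENNReal.ofReal_natCast, ← ENNReal.ofReal_mul (Nat.cast_nonneg _),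
      ← ENNReal.ofReal_mul hC1.le, ENNReal.ofReal_le_ofReal_iff (mul_pos hC1 hCB).le] at hsum
    rw [div_lt_iff₀ hε1] at hM
    linarith
  -- the greedy choice
  by_contra hcon
  have hstep : ∀ m ≤ M, ∃ F : ℕ → ℂ → ℂ, (∀ i < m, Bad (F i)) ∧
      (∀ i < m, ∀ j < m, i ≠ j → ¬ Clo (F i) r (F j)) := by
    intro m
    induction m with
    | zero =>
      intro _
      exact ⟨fun _ _ => 0, fun i hi => absurd hi (Nat.not_lt_zero i),
        fun i hi => absurd hi (Nat.not_lt_zero i)⟩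
    | succ m ih =>
      intro hm
      obtain ⟨F, hF, hFs⟩ := ih (by omega)
      have hex : ∃ γ, Bad γ ∧ ∀ i < m, ¬ Clo (F i) r γ := by
        by_contra hne
        push Not at hne
        apply hcon
        refine ⟨fun i => F i, ?_⟩
        intro γ h1 h2 h3
        obtain ⟨i, hi, hic⟩ := hne γ (by rw [hBad]; exact ⟨h1, h2, h3⟩)
        exact ⟨⟨i, by omega⟩, hic⟩
      obtain ⟨γ, hγ, hγs⟩ := hex
      refine ⟨fun i => if i = m then γ else F i, ?_, ?_⟩
      · intro i hi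
        by_cases him : i = m
        · simp only [him, if_true]
          exact hγ
        · simp only [him, if_false]
          exact hF i (by omega)
      · intro i hi j hj hij
        have hsym : ∀ a b : ℂ → ℂ, Clo a r b → Clo b r a := by
          intro a b h ζ hζ
          rw [norm_sub_rev]
          exact h ζ hζ
        by_cases him : i = m
        · have hjm : j ≠ m := fun h => hij (him.trans h.symm)
          simp only [him, hjm, if_true, if_false]
          intro h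
          exact hγs j (by omega) (hsym _ _ h)
        · by_cases hjm : j = m
          · simp only [him, hjm, if_true, if_false]
            exact hγs i (by omega)
          · simp only [him, hjm, if_false]
            exact hFs i (by omega) j (by omega) hij
  obtain ⟨F, hF, hFs⟩ := hstep M le_rfl
  exact claim F hF hFs

end Pool.Agent.P2
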