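import Pool.Agent.helper83.P2.SpecV

set_option autoImplicit false

open scoped ContDiff Topology
open MeasureTheory Filter Set Metric MvPolynomial Pool.Agent.helper37.QA Pool.Agent.P2

namespace Pool.Agent.P2V

theorem VTL : VTL_stmt := by
  intro a C m L N hC hm hmL hLN hsub hbd
  have hCm : ∀ j : ℕ, j < m → C * ((j : ℝ) + 1) ≤ C * m := by
    intro j hj
    have : (j : ℝ) + 1 ≤ m := by exact_mod_cast hj
    exact mul_le_mul_of_nonneg_left this hC
  -- the induction
  have hind : ∀ K : ℕ, K + m ≤ L + 1 → ∑ j ∈ Finset.range m, a 0 (K + j) ≤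
      C * m * m + ∑ i ∈ Finset.range K, a i m := by
    intro K
    induction K with
    | zero =>
      intro _
      rw [Finset.sum_range_zero, add_zero]
      calc ∑ j ∈ Finset.range m, a 0 (0 + j) ≤ ∑ j ∈ Finset.range m, C * m := by
            refine Finset.sum_le_sum fun j hj => ?_
            rw [Finset.mem_range] at hj
            rw [zero_add]
            have h1 := hbd 0 j (by omega)
            exact (le_abs_self _).trans (h1.trans (hCm j hj))
        _ = C * m * m := by
            rw [Finset.sum_const, Finset.card_range, nsmul_eq_mul]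
            ring
    | succ K ih =>
      intro hK
      have h1 := ih (by omega)
      have h2 : ∑ j ∈ Finset.range m, a 0 (K + 1 + j) + a 0 K =
          ∑ j ∈ Finset.range m, a 0 (K + j) + a 0 (K + m) := by
        rw [← Finset.sum_range_succ (fun j => a 0 (K + j)) m,
          Finset.sum_range_succ' (fun j => a 0 (K + j)) m]
        congr 1
        refine Finset.sum_congr rfl fun j _ => ?_
        rw [show K + 1 + j = K + (j + 1) from by omega]
      have h3 := hsub 0 K m (by omega)
      rw [zero_add] at h3
      rw [Finset.sum_range_succ]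
      linarith
  obtain ⟨K, hK⟩ : ∃ K, L = K + (m - 1) := ⟨L - (m - 1), by omega⟩
  have h1 := hind K (by omega)
  have h2 : (m : ℝ) * a 0 L ≤ ∑ j ∈ Finset.range m, a 0 (K + j) + C * m * m := by
    have e : (m : ℝ) * a 0 L = ∑ j ∈ Finset.range m, a 0 L := by
      rw [Finset.sum_const, Finset.card_range, nsmul_eq_mul]
    have e2 : ∑ j ∈ Finset.range m, a 0 (K + j) + C * m * m =
        ∑ j ∈ Finset.range m, (a 0 (K + j) + C * m) := by
      rw [Finset.sum_add_distrib, Finset.sum_const, Finset.card_range, nsmul_eq_mul]
      ring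
    rw [e, e2]
    refine Finset.sum_le_sum fun j hj => ?_
    rw [Finset.mem_range] at hj
    have h3 := hsub 0 (K + j) (m - 1 - j) (by omega)
    rw [zero_add, show K + j + (m - 1 - j) = L from by omega] at h3
    have h4 := hbd (K + j) (m - 1 - j) (by omega)
    have h5 := hCm (m - 1 - j) (by omega)
    have h6 := (le_abs_self _).trans (h4.trans h5)
    linarith
  have h3 : ∑ i ∈ Finset.range K, a i m ≤
      ∑ i ∈ Finset.range L, a i m + ((m : ℝ) - 1) * (C * (m + 1)) := by
    have e : ∑ i ∈ Finset.range L, a i m =
        ∑ i ∈ Finset.range K, a i m + ∑ j ∈ Finset.range (m - 1), a (K + j) m := by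
      rw [hK, Finset.sum_range_add]
    have e2 : -(((m : ℝ) - 1) * (C * (m + 1))) ≤ ∑ j ∈ Finset.range (m - 1), a (K + j) m := by
      have e3 : -(((m : ℝ) - 1) * (C * (m + 1))) =
          ∑ j ∈ Finset.range (m - 1), -(C * ((m : ℝ) + 1)) := by
        rw [Finset.sum_const, Finset.card_range, nsmul_eq_mul, Nat.cast_sub hm]
        push_cast
        ring
      rw [e3]
      refine Finset.sum_le_sum fun j hj => ?_
      rw [Finset.mem_range] at hj
      have := hbd (K + j) m (by omega)
      exact (abs_le.1 this).1
    linarith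
  have hm1 : (1 : ℝ) ≤ m := by exact_mod_cast hm
  nlinarith [mul_nonneg hC (by linarith : (0 : ℝ) ≤ m), mul_nonneg hC (sq_nonneg (m : ℝ))]

end Pool.Agent.P2V
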