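import Pool.Agent.helper56.P2.SpecW
import Pool.Agent.helper90.P2.COREd
import Pool.Agent.helper49.P2.IBP
import Pool.Agent.helper5.P2.INTB

set_option autoImplicit false
set_option linter.unusedVariables false

open scoped ContDiff Topology ComplexConjugate ENNReal
open MeasureTheory Filter Set Metric MvPolynomial Pool.Agent.helper37.QA

namespace Pool.Agent.P2W

open Pool.Agent.P2

/-- the cut-off -/
theorem WIA_bump (τ : ℝ) (hτ : 0 < τ) : ∃ k : ℂ × ℂ → ℝ, ContDiff ℝ ∞ k ∧ HasCompactSupport k ∧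
    tsupport k ⊆ closedBall (0 : ℂ) (3 / 4) ×ˢ closedBall (0 : ℂ) (3 / 4 * τ) ∧ (∀ p, 0 ≤ k p) ∧
    ∀ p : ℂ × ℂ, ‖p.1‖ < 1 / 2 → ‖p.2‖ < τ / 2 → k p = 1 := by
  obtain ⟨b1, hb1⟩ : ∃ b1 : ContDiffBump (0 : ℂ), b1.rIn = 1 / 2 ∧ b1.rOut = 3 / 4 :=
    ⟨⟨1 / 2, 3 / 4, by norm_num, by norm_num⟩, rfl, rfl⟩
  obtain ⟨b2, hb2⟩ : ∃ b2 : ContDiffBump (0 : ℂ), b2.rIn = τ / 2 ∧ b2.rOut = 3 / 4 * τ :=
    ⟨⟨τ / 2, 3 / 4 * τ, by linarith, by linarith⟩, rfl, rfl⟩
  have hsup : ∀ p : ℂ × ℂ, p ∉ closedBall (0 : ℂ) (3 / 4) ×ˢ closedBall (0 : ℂ) (3 / 4 * τ) →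
      b1 p.1 * b2 p.2 = 0 := by
    intro p hp
    rw [mem_prod, not_and_or] at hp
    rcases hp with h | h
    · have : b1 p.1 = 0 := by
        apply b1.zero_of_le_dist
        rw [hb1.2]
        rw [mem_closedBall, not_le] at h
        exact h.le
      rw [this, zero_mul]
    · have : b2 p.2 = 0 := by
        apply b2.zero_of_le_dist
        rw [hb2.2]
        rw [mem_closedBall, not_le] at h
        exact h.le
      rw [this, mul_zero]
  have hcpt : IsCompact (closedBall (0 : ℂ) (3 / 4) ×ˢ closedBall (0 : ℂ) (3 / 4 * τ)) :=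
    (isCompact_closedBall _ _).prod (isCompact_closedBall _ _)
  refine ⟨fun p => b1 p.1 * b2 p.2, ?_, HasCompactSupport.intro hcpt hsup, ?_, ?_, ?_⟩
  · exact (b1.contDiff.comp contDiff_fst).mul (b2.contDiff.comp contDiff_snd)
  · refine closure_minimal ?_ hcpt.isClosed
    intro p hp
    by_contra h
    exact hp (hsup p h)
  · intro p
    exact mul_nonneg b1.nonneg b2.nonneg
  · intro p h1 h2
    have e1 : b1 p.1 = 1 := by
      apply b1.one_of_mem_closedBall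
      rw [hb1.1, mem_closedBall_zero_iff]
      exact h1.le
    have e2 : b2 p.2 = 1 := by
      apply b2.one_of_mem_closedBall
      rw [hb2.1, mem_closedBall_zero_iff]
      exact h2.le
    show b1 p.1 * b2 p.2 = 1
    rw [e1, e2, mul_one]

/-- the Levi form of the cut-off is bounded -/
theorem WIA_levbd (k : ℂ × ℂ → ℝ) (hk : ContDiff ℝ ∞ k) (hc : HasCompactSupport k) :
    ∃ M : ℝ, 0 ≤ M ∧ ∀ p a : ℂ × ℂ, |lev k p a| ≤ M * (Complex.normSq a.1 + Complex.normSq a.2) := by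
  have h1 : Continuous (iteratedFDeriv ℝ 2 k) := hk.continuous_iteratedFDeriv (by norm_cast)
  obtain ⟨C, hC⟩ := h1.bounded_above_of_compact_support (hc.iteratedFDeriv (𝕜 := ℝ) 2)
  have hC0 : 0 ≤ C := (norm_nonneg _).trans (hC 0)
  refine ⟨C, hC0, ?_⟩
  intro p a
  rw [CORE_lev ((hk.contDiffAt).of_le (by norm_cast)) a]
  have ha : ‖a‖ ^ 2 ≤ Complex.normSq a.1 + Complex.normSq a.2 := by
    rw [Complex.normSq_eq_norm_sq, Complex.normSq_eq_norm_sq, Prod.norm_def]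
    rcases max_cases ‖a.1‖ ‖a.2‖ with ⟨h, _⟩ | ⟨h, _⟩
    · rw [h]; nlinarith [sq_nonneg ‖a.2‖]
    · rw [h]; nlinarith [sq_nonneg ‖a.1‖]
  have hb : ∀ b : ℂ × ℂ, |iteratedFDeriv ℝ 2 k p ![b, b]| ≤ C * ‖b‖ ^ 2 := by
    intro b
    have := (iteratedFDeriv ℝ 2 k p).le_opNorm ![b, b]
    rw [Real.norm_eq_abs, Fin.prod_univ_two] at this
    refine this.trans ?_
    have e : ‖(![b, b] : Fin 2 → ℂ × ℂ) 0‖ * ‖(![b, b] : Fin 2 → ℂ × ℂ) 1‖ = ‖b‖ ^ 2 := by
      simp [sq]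
    rw [e]
    exact mul_le_mul_of_nonneg_right (hC p) (sq_nonneg _)
  have hI : ‖Complex.I • a‖ = ‖a‖ := by rw [norm_smul, Complex.norm_I, one_mul]
  have h2 := hb a
  have h3 := hb (Complex.I • a)
  rw [hI] at h3
  rw [abs_le] at h2 h3 ⊢
  have h4 : C * ‖a‖ ^ 2 ≤ C * (Complex.normSq a.1 + Complex.normSq a.2) :=
    mul_le_mul_of_nonneg_left ha hC0
  constructor <;> nlinarith [h2.1, h2.2, h3.1, h3.2, mul_nonneg hC0 (sq_nonneg ‖a‖)]

/-- Tonelli -/
theorem WIA_ton (S T : Set ℂ) (hS : MeasurableSet S) (hT : MeasurableSet T) (f : ℂ × ℂ → ℝ≥0∞)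
    (hf : AEMeasurable f (volume.restrict (S ×ˢ T))) (c : ℝ≥0∞) :
    ((∀ v ∈ T, ∫⁻ ξ in S, f (ξ, v) ≤ c) → ∫⁻ p in S ×ˢ T, f p ≤ c * volume T) ∧
    ((∀ ξ ∈ S, ∫⁻ v in T, f (ξ, v) ≤ c) → ∫⁻ p in S ×ˢ T, f p ≤ c * volume S) := by
  have e : (volume : Measure (ℂ × ℂ)).restrict (S ×ˢ T) =
      ((volume : Measure ℂ).restrict S).prod ((volume : Measure ℂ).restrict T) := by
    rw [Measure.volume_eq_prod, Measure.prod_restrict]
  rw [e] at hf ⊢
  constructor
  · intro h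
    rw [lintegral_prod_symm _ hf]
    calc ∫⁻ v in T, ∫⁻ ξ in S, f (ξ, v) ≤ ∫⁻ v in T, c := setLIntegral_mono' hT h
      _ = c * volume T := setLIntegral_const _ _
  · intro h
    rw [lintegral_prod _ hf]
    calc ∫⁻ ξ in S, ∫⁻ v in T, f (ξ, v) ≤ ∫⁻ ξ in S, c := setLIntegral_mono' hS h
      _ = c * volume S := setLIntegral_const _ _

theorem WIA (hIBP : IBP_stmt) (hMAU : MAU_stmt) (hWAF : WAF_stmt) (hWHO : WHO_stmt)
    (hWM2 : WM2_stmt) : WIA_stmt := by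
  intro d f U hd τ κ C0 α hτ hκ hκ10 hWC
  obtain ⟨CM, hCM, hM⟩ := hWM2 d f U hd τ κ C0 α hτ hκ hκ10 hWC
  obtain ⟨k, hk, hkc, hks, hk0, hk1⟩ := WIA_bump τ hτ
  obtain ⟨M, hM0, hkM⟩ := WIA_levbd k hk hkc
  obtain ⟨V1, hV1⟩ : ∃ V : ℝ, V = (volume (ball (0 : ℂ) (9 / 10))).toReal := ⟨_, rfl⟩
  obtain ⟨V2, hV2⟩ : ∃ V : ℝ, V = (volume (ball (0 : ℂ) (9 / 10 * τ))).toReal := ⟨_, rfl⟩
  have hV1' : volume (ball (0 : ℂ) (9 / 10)) = ENNReal.ofReal V1 := by
    rw [hV1, ENNReal.ofReal_toReal measure_ball_lt_top.ne]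
  have hV2' : volume (ball (0 : ℂ) (9 / 10 * τ)) = ENNReal.ofReal V2 := by
    rw [hV2, ENNReal.ofReal_toReal measure_ball_lt_top.ne]
  have hV10 : 0 ≤ V1 := by rw [hV1]; exact ENNReal.toReal_nonneg
  have hV20 : 0 ≤ V2 := by rw [hV2]; exact ENNReal.toReal_nonneg
  have hC0 : 0 ≤ C0 := le_trans zero_le_one hWC.c1
  refine ⟨8 * C0 * M * (CM * V1 + CM * V2) + 1, by positivity, ?_⟩
  intro ι c γ hTb m n hmn
  have hd0 : (0 : ℝ) < d := by
    have : 0 < d := by omega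
    exact_mod_cast this
  have hdn : (0 : ℝ) < (d : ℝ) ^ n := pow_pos hd0 n
  have hdm : (0 : ℝ) < (d : ℝ) ^ m := pow_pos hd0 m
  -- the domain
  obtain ⟨Ω, hΩ⟩ : ∃ Ω : Set (ℂ × ℂ), Ω = P2U.TB 1 τ := ⟨_, rfl⟩
  have hΩo : IsOpen Ω := by
    rw [hΩ]
    exact (isOpen_lt continuous_fst.norm continuous_const).inter
      (isOpen_lt continuous_snd.norm continuous_const)
  have hΩ1 : ∀ p ∈ Ω, p ∈ {p : ℂ × ℂ | ‖p.1‖ < 1} := by
    intro p hp
    rw [hΩ] at hp
    exact hp.1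
  have hksΩ : closedBall (0 : ℂ) (3 / 4) ×ˢ closedBall (0 : ℂ) (3 / 4 * τ) ⊆
      ball (0 : ℂ) (9 / 10) ×ˢ ball (0 : ℂ) (9 / 10 * τ) := by
    rintro p ⟨h1, h2⟩
    rw [mem_closedBall_zero_iff] at h1 h2
    refine ⟨?_, ?_⟩
    · rw [mem_ball_zero_iff]; linarith
    · rw [mem_ball_zero_iff]; linarith
  have hBΩ : ball (0 : ℂ) (9 / 10) ×ˢ ball (0 : ℂ) (9 / 10 * τ) ⊆ Ω := by
    rintro p ⟨h1, h2⟩
    rw [mem_ball_zero_iff] at h1 h2
    rw [hΩ]
    exact ⟨by linarith, by linarith⟩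
  have hKcpt : IsCompact (closedBall (0 : ℂ) (3 / 4) ×ˢ closedBall (0 : ℂ) (3 / 4 * τ)) :=
    (isCompact_closedBall _ _).prod (isCompact_closedBall _ _)
  have hKΩ : closedBall (0 : ℂ) (3 / 4) ×ˢ closedBall (0 : ℂ) (3 / 4 * τ) ⊆ Ω := hksΩ.trans hBΩ
  -- the functions
  obtain ⟨P, hP⟩ : ∃ P : ℂ × ℂ → ℂ, P = gP f n ι c κ γ := ⟨_, rfl⟩
  obtain ⟨Q, hQ⟩ : ∃ Q : ℂ × ℂ → ℂ, Q = gQ f n ι c κ γ := ⟨_, rfl⟩
  have hana := (hWHO d f ι c κ γ n hTb.hd).1
  have hanam := (hWHO d f ι c κ γ m hTb.hd).1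
  have hPd : DifferentiableOn ℂ P Ω := by
    intro p hp
    have h1 := (hana p (hΩ1 p hp)).differentiableAt
    rw [hP]
    exact ((differentiableAt_pi.1 h1) 0).differentiableWithinAt
  have hQd : DifferentiableOn ℂ Q Ω := by
    intro p hp
    have h1 := (hana p (hΩ1 p hp)).differentiableAt
    rw [hQ]
    exact ((differentiableAt_pi.1 h1) 1).differentiableWithinAt
  have hne : ∀ p ∈ Ω, P p ≠ 0 ∨ Q p ≠ 0 := by
    intro p hp
    rw [hΩ] at hp
    by_contra h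
    push Not at h
    have h1 := (hWC.nz ι c γ hTb n p hp).1
    have h2 : pq (It f n (gp ι c κ γ p)) = Complex.normSq (P p) + Complex.normSq (Q p) := by
      rw [hP, hQ]; rfl
    rw [h2, h.1, h.2] at h1
    simp at h1
  obtain ⟨cw1, cw2, com⟩ := CORE_geo hΩo hPd hQd hne
  have cev : ContinuousOn (ev P Q) Ω := by
    unfold Pool.Agent.P2.ev
    exact cw2.neg.prodMk cw1
  -- the two potentials
  obtain ⟨A, hA⟩ : ∃ A : ℂ × ℂ → ℝ, A = fun p => (1 / 2) * Real.log (nq (It f m (gp ι c κ γ p))) :=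
    ⟨_, rfl⟩
  obtain ⟨D, hD⟩ : ∃ D : ℝ, D = (d : ℝ) ^ n / (d : ℝ) ^ m := ⟨_, rfl⟩
  have hD0 : 0 < D := by rw [hD]; positivity
  have hGne : ∀ p ∈ Ω, It f m (gp ι c κ γ p) ≠ 0 := by
    intro p hp h0
    rw [hΩ] at hp
    have h1 := (hWC.nz ι c γ hTb m p hp).1
    rw [h0] at h1
    simp [pq] at h1
  have hAs : ContDiffOn ℝ ∞ A Ω := by
    intro p hp
    rw [hA]
    exact ((hWAF _ p (hanam p (hΩ1 p hp)) (hGne p hp)).1).contDiffWithinAt
  have hUs : ContDiffOn ℝ ∞ (uu P Q D) Ω := by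
    have h1 := IBP_uu hΩo hPd hQd hne
    have h2 : uu P Q D = fun p => uu P Q 1 p / D := by
      funext p
      unfold uu
      rw [div_one]
    rw [h2]
    exact h1.div_const D
  have hBs : ContDiffOn ℝ ∞ (fun p => A p - uu P Q D p) Ω := hAs.sub hUs
  have hlevA : ∀ p ∈ Ω, lev A p (ev P Q p) = Af f m ι c κ γ p (ev P Q p) / 2 := by
    intro p hp
    rw [hA, (hWAF _ p (hanam p (hΩ1 p hp)) (hGne p hp)).2]
    unfold Af
    rw [div_div, mul_comm]
  have hlevB : ∀ p ∈ Ω, lev (fun p => A p - uu P Q D p) p (ev P Q p) =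
      Af f m ι c κ γ p (ev P Q p) / 2 := by
    intro p hp
    rw [INTB_levsub A (uu P Q D) p _
      ((hAs.contDiffAt (hΩo.mem_nhds hp)).of_le (by norm_cast))
      ((hUs.contDiffAt (hΩo.mem_nhds hp)).of_le (by norm_cast)),
      hlevA p hp, (hMAU Ω P Q A D hΩo hPd hQd hne hAs hD0 p hp).2.2, sub_zero]
  have hdiff : ∀ p ∈ Ω, |A p - uu P Q D p| ≤ 2 * C0 := by
    intro p hp
    rw [hΩ] at hp
    have h1 := (hWC.nz ι c γ hTb m p hp).2.2.1
    have h2 := hWC.lv ι c γ hTb m n hmn p hp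
    have h3 : uu P Q D p = (d : ℝ) ^ m * un f n (gp ι c κ γ p) := by
      rw [hP, hQ, hD]
      show (1 / 2) * Real.log (pq (It f n (gp ι c κ γ p))) / ((d : ℝ) ^ n / (d : ℝ) ^ m) =
        (d : ℝ) ^ m * ((1 / 2) * Real.log (pq (It f n (gp ι c κ γ p))) / (d : ℝ) ^ n)
      field_simp
    have h4 : |(d : ℝ) ^ m * (un f n (gp ι c κ γ p) - un f m (gp ι c κ γ p))| ≤ C0 := by
      rw [abs_mul, abs_of_pos hdm]
      calc (d : ℝ) ^ m * |un f n (gp ι c κ γ p) - un f m (gp ι c κ γ p)| ≤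
            (d : ℝ) ^ m * (C0 / (d : ℝ) ^ m) := mul_le_mul_of_nonneg_left h2 hdm.le
        _ = C0 := by field_simp
    have h5 : A p = (1 / 2) * Real.log (nq (It f m (gp ι c κ γ p))) := by rw [hA]
    rw [h3, h5]
    rw [abs_le] at h1 h4 ⊢
    constructor <;> nlinarith [h1.1, h1.2, h4.1, h4.2]
  -- integration by parts
  have hparts := hIBP Ω P Q k (fun p => A p - uu P Q D p) hΩo hPd hQd hne hk hkc
    (hks.trans hKΩ) hBs
  -- the function F
  obtain ⟨F, hF⟩ : ∃ F : ℂ × ℂ → ℝ,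
    F = fun p => k p * lev (fun p => A p - uu P Q D p) p (ev P Q p) * om P Q p := ⟨_, rfl⟩
  have hkz : ∀ p, p ∉ closedBall (0 : ℂ) (3 / 4) ×ˢ closedBall (0 : ℂ) (3 / 4 * τ) → k p = 0 := by
    intro p hp
    exact image_eq_zero_of_notMem_tsupport fun h => hp (hks h)
  have hFint : Integrable F := by
    refine CORE_int hΩo hKcpt hKΩ ?_ ?_
    · rw [hF]
      exact (hk.continuous.continuousOn.mul (CORE_levcont hΩo hBs cev)).mul com
    · intro p hp
      rw [hF]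
      show k p * _ * _ = 0
      rw [hkz p hp, zero_mul, zero_mul]
  have hom0 : ∀ p, 0 ≤ om P Q p := fun p => by unfold om; positivity
  have hAf0 : ∀ p a, 0 ≤ Af f m ι c κ γ p a := by
    intro p a
    unfold Af
    refine div_nonneg ?_ (sq_nonneg _)
    unfold nq
    exact Finset.sum_nonneg fun i _ => Complex.normSq_nonneg _
  have hF0 : ∀ p, 0 ≤ F p := by
    intro p
    rw [hF]
    by_cases hp : p ∈ Ω
    · show 0 ≤ k p * lev (fun p => A p - uu P Q D p) p (ev P Q p) * om P Q p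
      rw [hlevB p hp]
      exact mul_nonneg (mul_nonneg (hk0 p) (div_nonneg (hAf0 _ _) (by norm_num))) (hom0 p)
    · show 0 ≤ k p * lev (fun p => A p - uu P Q D p) p (ev P Q p) * om P Q p
      rw [hkz p fun h => hp (hKΩ h), zero_mul, zero_mul]
  -- first step
  have step1 : ∫⁻ p in P2U.TB (1 / 2) (τ / 2), ENNReal.ofReal (Af f m ι c κ γ p (ev P Q p) *
      om P Q p / (d : ℝ) ^ n) ≤ ENNReal.ofReal (2 / (d : ℝ) ^ n) * ENNReal.ofReal (∫ p, F p) := by
    rw [ofReal_integral_eq_lintegral_ofReal hFint (Filter.Eventually.of_forall hF0),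
      ← lintegral_const_mul' _ _ ENNReal.ofReal_ne_top]
    refine (setLIntegral_mono' ?_ ?_).trans (setLIntegral_le_lintegral _ _)
    · exact ((isOpen_lt continuous_fst.norm continuous_const).inter
        (isOpen_lt continuous_snd.norm continuous_const)).measurableSet
    · intro p hp
      have hpΩ : p ∈ Ω := by
        rw [hΩ]
        exact ⟨by linarith [hp.1], by linarith [hp.2]⟩
      rw [← ENNReal.ofReal_mul (by positivity)]
      refine ENNReal.ofReal_le_ofReal (le_of_eq ?_)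
      rw [hF]
      show _ = 2 / (d : ℝ) ^ n * (k p * lev (fun p => A p - uu P Q D p) p (ev P Q p) * om P Q p)
      rw [hlevB p hpΩ, hk1 p hp.1 hp.2]
      ring
  -- second step
  obtain ⟨S, hS⟩ : ∃ S : ℂ × ℂ → ℝ, S = fun p => (1 / 2) * Complex.normSq (w1 P Q p) * om P Q p /
    (d : ℝ) ^ n + (1 / 2) * Complex.normSq (w2 P Q p) * om P Q p / (d : ℝ) ^ n := ⟨_, rfl⟩
  have step2 : ENNReal.ofReal (∫ p, F p) ≤ ENNReal.ofReal (4 * C0 * M * (d : ℝ) ^ n) *
      ∫⁻ p in ball (0 : ℂ) (9 / 10) ×ˢ ball (0 : ℂ) (9 / 10 * τ), ENNReal.ofReal (S p) := by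
    have e1 : ∫ p, F p = ∫ p, (A p - uu P Q D p) * lev k p (ev P Q p) * om P Q p := by
      rw [hF]
      exact hparts.symm
    rw [e1]
    refine (ENNReal.ofReal_le_ofReal (le_abs_self _)).trans ?_
    rw [← Real.norm_eq_abs, ofReal_norm]
    refine (enorm_integral_le_lintegral_enorm _).trans ?_
    rw [← lintegral_const_mul' _ _ ENNReal.ofReal_ne_top, ← lintegral_indicator
      ((isOpen_ball.prod isOpen_ball).measurableSet)]
    refine lintegral_mono fun p => ?_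
    by_cases hp : p ∈ ball (0 : ℂ) (9 / 10) ×ˢ ball (0 : ℂ) (9 / 10 * τ)
    · rw [indicator_of_mem hp, ← ofReal_norm, ← ENNReal.ofReal_mul (by positivity)]
      refine ENNReal.ofReal_le_ofReal ?_
      rw [Real.norm_eq_abs, abs_mul, abs_mul, abs_of_nonneg (hom0 p)]
      have h1 := hdiff p (hBΩ hp)
      have h2 := hkM p (ev P Q p)
      have h3 : Complex.normSq (ev P Q p).1 + Complex.normSq (ev P Q p).2 =
          Complex.normSq (w1 P Q p) + Complex.normSq (w2 P Q p) := by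
        unfold Pool.Agent.P2.ev
        rw [Complex.normSq_neg]
        ring
      rw [h3] at h2
      have h4 : |A p - uu P Q D p| * |lev k p (ev P Q p)| ≤
          2 * C0 * (M * (Complex.normSq (w1 P Q p) + Complex.normSq (w2 P Q p))) :=
        mul_le_mul h1 h2 (abs_nonneg _) (by linarith)
      calc |A p - uu P Q D p| * |lev k p (ev P Q p)| * om P Q p ≤
            2 * C0 * (M * (Complex.normSq (w1 P Q p) + Complex.normSq (w2 P Q p))) * om P Q p :=
            mul_le_mul_of_nonneg_right h4 (hom0 p)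
        _ = 4 * C0 * M * (d : ℝ) ^ n * S p := by
            rw [hS]
            field_simp
            ring
    · rw [indicator_of_notMem hp]
      have h1 : lev k p (ev P Q p) = 0 := by
        apply IBP_lev
        have h2 : p ∉ tsupport k := fun h => hp (hksΩ (hks h))
        exact notMem_tsupport_iff_eventuallyEq.1 h2
      rw [h1, mul_zero, zero_mul, enorm_zero]
  -- third step
  have cS1 : ContinuousOn (fun p => (1 / 2) * Complex.normSq (w1 P Q p) * om P Q p / (d : ℝ) ^ n) Ω :=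
    ((continuousOn_const.mul (Complex.continuous_normSq.comp_continuousOn cw1)).mul com).div_const _
  have cS2 : ContinuousOn (fun p => (1 / 2) * Complex.normSq (w2 P Q p) * om P Q p / (d : ℝ) ^ n) Ω :=
    ((continuousOn_const.mul (Complex.continuous_normSq.comp_continuousOn cw2)).mul com).div_const _
  have hmeas : MeasurableSet (ball (0 : ℂ) (9 / 10) ×ˢ ball (0 : ℂ) (9 / 10 * τ)) :=
    (isOpen_ball.prod isOpen_ball).measurableSet
  have aS1 : AEMeasurable (fun p => ENNReal.ofReal ((1 / 2) * Complex.normSq (w1 P Q p) *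
      om P Q p / (d : ℝ) ^ n)) (volume.restrict (ball (0 : ℂ) (9 / 10) ×ˢ
        ball (0 : ℂ) (9 / 10 * τ))) :=
    ((cS1.mono hBΩ).aemeasurable hmeas).ennreal_ofReal
  have aS2 : AEMeasurable (fun p => ENNReal.ofReal ((1 / 2) * Complex.normSq (w2 P Q p) *
      om P Q p / (d : ℝ) ^ n)) (volume.restrict (ball (0 : ℂ) (9 / 10) ×ˢ
        ball (0 : ℂ) (9 / 10 * τ))) :=
    ((cS2.mono hBΩ).aemeasurable hmeas).ennreal_ofReal
  have step3 : ∫⁻ p in ball (0 : ℂ) (9 / 10) ×ˢ ball (0 : ℂ) (9 / 10 * τ), ENNReal.ofReal (S p) ≤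
      ENNReal.ofReal (CM * V1 + CM * V2) := by
    have b1 := (WIA_ton _ _ measurableSet_ball measurableSet_ball _ aS1 (ENNReal.ofReal CM)).1 ?_
    · have b2 := (WIA_ton _ _ measurableSet_ball measurableSet_ball _ aS2 (ENNReal.ofReal CM)).2 ?_
      · calc ∫⁻ p in ball (0 : ℂ) (9 / 10) ×ˢ ball (0 : ℂ) (9 / 10 * τ), ENNReal.ofReal (S p) ≤
            ∫⁻ p in ball (0 : ℂ) (9 / 10) ×ˢ ball (0 : ℂ) (9 / 10 * τ),
              (ENNReal.ofReal ((1 / 2) * Complex.normSq (w1 P Q p) * om P Q p / (d : ℝ) ^ n) +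
              ENNReal.ofReal ((1 / 2) * Complex.normSq (w2 P Q p) * om P Q p / (d : ℝ) ^ n)) := by
              refine lintegral_mono fun p => ?_
              rw [hS]
              exact ENNReal.ofReal_add_le
          _ = (∫⁻ p in ball (0 : ℂ) (9 / 10) ×ˢ ball (0 : ℂ) (9 / 10 * τ),
              ENNReal.ofReal ((1 / 2) * Complex.normSq (w1 P Q p) * om P Q p / (d : ℝ) ^ n)) +
              ∫⁻ p in ball (0 : ℂ) (9 / 10) ×ˢ ball (0 : ℂ) (9 / 10 * τ),
              ENNReal.ofReal ((1 / 2) * Complex.normSq (w2 P Q p) * om P Q p / (d : ℝ) ^ n) :=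
              lintegral_add_left' aS1 _
          _ ≤ ENNReal.ofReal CM * volume (ball (0 : ℂ) (9 / 10 * τ)) +
              ENNReal.ofReal CM * volume (ball (0 : ℂ) (9 / 10)) := add_le_add b1 b2
          _ = ENNReal.ofReal (CM * V1 + CM * V2) := by
              rw [hV1', hV2', ← ENNReal.ofReal_mul hCM.le, ← ENNReal.ofReal_mul hCM.le,
                ← ENNReal.ofReal_add (by positivity) (by positivity), add_comm]
      · intro ξ hξ
        have h1 := (hM ι c γ hTb n n 0 0 (by simpa using hτ) (by simpa using hτ)).2.2 ξ hξ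
        rw [hP, hQ]
        exact h1
    · intro v hv
      have hvτ : ‖v‖ < τ := by
        rw [mem_ball_zero_iff] at hv
        linarith
      have h1 := (hM ι c γ hTb n n v v hvτ hvτ).2.1
      rw [hP, hQ]
      exact h1
  have e0 : ∀ p, Af f m ι c κ γ p (ev (gP f n ι c κ γ) (gQ f n ι c κ γ) p) *
      om (gP f n ι c κ γ) (gQ f n ι c κ γ) p / (d : ℝ) ^ n =
      Af f m ι c κ γ p (ev P Q p) * om P Q p / (d : ℝ) ^ n := by
    intro p
    rw [hP, hQ]
  simp only [e0]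
  calc ∫⁻ p in P2U.TB (1 / 2) (τ / 2), ENNReal.ofReal (Af f m ι c κ γ p (ev P Q p) *
      om P Q p / (d : ℝ) ^ n) ≤ ENNReal.ofReal (2 / (d : ℝ) ^ n) * ENNReal.ofReal (∫ p, F p) := step1
    _ ≤ ENNReal.ofReal (2 / (d : ℝ) ^ n) * (ENNReal.ofReal (4 * C0 * M * (d : ℝ) ^ n) *
        ENNReal.ofReal (CM * V1 + CM * V2)) :=
      mul_le_mul' le_rfl (step2.trans (mul_le_mul' le_rfl step3))
    _ = ENNReal.ofReal (8 * C0 * M * (CM * V1 + CM * V2)) := by
      rw [← ENNReal.ofReal_mul (by positivity), ← ENNReal.ofReal_mul (by positivity)]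
      congr 1
      field_simp
      ring
    _ ≤ ENNReal.ofReal (8 * C0 * M * (CM * V1 + CM * V2) + 1) :=
      ENNReal.ofReal_le_ofReal (by linarith)

end Pool.Agent.P2W
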